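import Pool.Agent.L5helper75.PolarCurve
import Pool.Agent.L5helper75.PolarMain

/-!
# The reflection inequality for the modulus of joining curve families

Let `n ≥ 2`, let `E` be a non-empty compact subset of the half-space `x i ≥ 0` of `ℝⁿ`, `F` a
non-empty compact subset of the half-space `x i ≤ 0`, and let `F*` be the mirror image of `F` in the
hyperplane `x i = 0`. Then the conformal modulus of the family of all curves in `ℝⁿ ∪ {∞}` joining
`E` and `F` is at most the modulus of the family of all curves joining `E` and `F*`.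

Idea of the proof. For an admissible function of the second family there is a locally Lipschitz
potential `v` with almost the same energy, with constant values on `E` and on `F*`. The function
which is `max (v x) (v x*)` for `x i ≥ 0` and `min (v x) (v x*)` for `x i ≤ 0` has the same energy as
`v`, and it separates `E` from `F`.
-/

set_option autoImplicit false

open MeasureTheory Set Filter Topology
open scoped ENNReal

namespace Pool.Agent.Results.MP_69cc0b_an.ReflectionInequality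

/-- Euclidean `n`-space. -/
abbrev Eucl (n : ℕ) := EuclideanSpace ℝ (Fin n)

/-- A curve in `ℝⁿ ∪ {∞}`: a continuous map `γ : [a, b] → ℝⁿ ∪ {∞}`. -/
structure Curve (n : ℕ) where
  /-- the left endpoint of the interval -/
  a : ℝ
  /-- the right endpoint of the interval -/
  b : ℝ
  /-- the interval is not degenerate -/
  lt : a < b
  /-- the map -/
  toFun : ℝ → OnePoint (Eucl n)
  /-- the map is continuous on the interval -/
  cont : ContinuousOn toFun (Icc a b)

/-- `Δ(A, B)`: the family of all curves in `ℝⁿ ∪ {∞}` joining `A` and `B`. -/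
def joining {n : ℕ} (A B : Set (OnePoint (Eucl n))) : Set (Curve n) :=
  {γ | γ.toFun γ.a ∈ A ∧ γ.toFun γ.b ∈ B}

/-- The curve `γ` lies in `ℝⁿ`, where it is the path `c`, and it has finite length. -/
def IsRectifiableAs {n : ℕ} (γ : Curve n) (c : ℝ → Eucl n) : Prop :=
  (∀ t ∈ Icc γ.a γ.b, γ.toFun t = ((c t : Eucl n) : OnePoint (Eucl n))) ∧
    eVariationOn c (Icc γ.a γ.b) ≠ ⊤

/-- The line integral `∫_c ρ ds` over a path `c : [a, b] → ℝⁿ` of finite length: the integral of
`ρ ∘ c_s` over `[0, length of c]`, where `c_s` is the parametrization of `c` by arc length. -/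
noncomputable def lineIntegral {n : ℕ} (ρ : Eucl n → ℝ≥0∞) (c : ℝ → Eucl n) (a b : ℝ) : ℝ≥0∞ :=
  ∫⁻ s in Icc 0 (eVariationOn c (Icc a b)).toReal, ρ (naturalParameterization c (Icc a b) a s)

/-- The `n`-modulus of a family `Γ` of curves in `ℝⁿ ∪ {∞}`: the infimum of `∫ ρⁿ` over the Borel
functions `ρ : ℝⁿ → [0, ∞]` with `∫_γ ρ ds ≥ 1` for all rectifiable `γ` in `Γ`. -/
noncomputable def modulus {n : ℕ} (Γ : Set (Curve n)) : ℝ≥0∞ :=
  ⨅ (ρ : Eucl n → ℝ≥0∞) (_ : Measurable ρ)
    (_ : ∀ γ ∈ Γ, ∀ c : ℝ → Eucl n, IsRectifiableAs γ c → 1 ≤ lineIntegral ρ c γ.a γ.b),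
    ∫⁻ x, ρ x ^ n

/-- The reflection in the hyperplane `x i = 0`. -/
def reflect {n : ℕ} (i : Fin n) (x : Eucl n) : Eucl n :=
  WithLp.toLp 2 (fun j => if j = i then -x j else x j)

section aux

open Pool.Agent.TH221 Pool.Agent.L5helper75

variable {n : ℕ}

lemma cont_lift {γ : Curve n} {c : ℝ → Eucl n} (h : IsRectifiableAs γ c) :
    ContinuousOn c (Icc γ.a γ.b) := by
  have h1 : ContinuousOn (fun t => ((c t : Eucl n) : OnePoint (Eucl n))) (Icc γ.a γ.b) :=
    γ.cont.congr fun t ht => (h.1 t ht).symm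
  exact (OnePoint.isOpenEmbedding_coe.isInducing.continuousOn_iff).2 h1

lemma mem_up {E : Set (Eucl n)} {x : Eucl n} :
    (x : OnePoint (Eucl n)) ∈ OnePoint.some '' E ↔ x ∈ E := by
  constructor
  · rintro ⟨y, hy, hxy⟩
    rwa [← OnePoint.coe_injective hxy]
  · intro hx
    exact ⟨x, hx, rfl⟩

lemma adm_imp {E F : Set (Eucl n)} {ρ : Eucl n → ℝ≥0∞} (h : Adm ∅ E F ρ) :
    ∀ γ ∈ joining (OnePoint.some '' E) (OnePoint.some '' F), ∀ c : ℝ → Eucl n, IsRectifiableAs γ c →
      1 ≤ lineIntegral ρ c γ.a γ.b := by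
  rintro γ ⟨ha, hb⟩ c hc
  have hcc := cont_lift hc
  rw [hc.1 γ.a (left_mem_Icc.2 γ.lt.le), mem_up] at ha
  rw [hc.1 γ.b (right_mem_Icc.2 γ.lt.le), mem_up] at hb
  obtain ⟨g, ℓ, hg, hℓ, hg0, hg1, hcost⟩ := PolarCurve.bridge_to_crv γ.lt.le hcc hc.2
  have hcrv : Crv univ ∅ (c γ.a) (c γ.b) g ℓ :=
    ⟨hg, hℓ, hg0, hg1, fun _ _ => mem_univ _, by simp⟩
  have := h.2 _ ha _ hb g ℓ hcrv
  rw [← hcost ρ] at this
  exact this

lemma adm_of {E F : Set (Eucl n)} {ρ : Eucl n → ℝ≥0∞} (hm : Measurable ρ)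
    (h : ∀ γ ∈ joining (OnePoint.some '' E) (OnePoint.some '' F), ∀ c : ℝ → Eucl n, IsRectifiableAs γ c →
      1 ≤ lineIntegral ρ c γ.a γ.b) : Adm ∅ E F ρ := by
  refine ⟨hm, fun x hx y hy g ℓ hg => ?_⟩
  obtain ⟨c, hc, h0, h1, hv, -, hcost⟩ := bridge_of_crv hg
  refine le_trans ?_ (hcost ρ hm)
  have hcont : ContinuousOn (fun t => ((c t : Eucl n) : OnePoint (Eucl n))) (Icc 0 1) :=
    (OnePoint.continuous_coe.comp_continuousOn hc)
  refine h ⟨0, 1, zero_lt_one, fun t => ((c t : Eucl n) : OnePoint (Eucl n)), hcont⟩ ⟨?_, ?_⟩ c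
    ⟨fun t _ => rfl, hv⟩
  · change ((c 0 : Eucl n) : OnePoint (Eucl n)) ∈ OnePoint.some '' E
    rw [mem_up, h0]
    exact hx
  · change ((c 1 : Eucl n) : OnePoint (Eucl n)) ∈ OnePoint.some '' F
    rw [mem_up, h1]
    exact hy

end aux

open Pool.Agent.TH221 Pool.Agent.L5helper75 in
/-- **The reflection inequality.** Let `n ≥ 2`, let `E` and `F` be non-empty compact sets in the
half-spaces `x i ≥ 0` and `x i ≤ 0` of `ℝⁿ`, and let `F*` be the mirror image of `F` in the
hyperplane `x i = 0`. Then `M(Δ(E, F)) ≤ M(Δ(E, F*))`. -/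
theorem result (n : ℕ) (hn : 2 ≤ n) (i : Fin n) (E F : Set (Eucl n)) (hE : IsCompact E)
    (hF : IsCompact F) (hEne : E.Nonempty) (hFne : F.Nonempty) (hE0 : ∀ x ∈ E, 0 ≤ x i)
    (hF0 : ∀ x ∈ F, x i ≤ 0) :
    modulus (joining (OnePoint.some '' E) (OnePoint.some '' F)) ≤
      modulus (joining (OnePoint.some '' E) (OnePoint.some '' (reflect i '' F))) := by
  have _ := hFne
  refine le_iInf fun ρ => le_iInf fun hm => le_iInf fun hρ => ?_
  have hadm : Adm ∅ E (reflect i '' F) ρ := adm_of hm hρ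
  have hmain := PolarPot.polar_ineq hn i hE hF hEne hE0 hF0 (ρ := ρ) hadm
  refine le_trans ?_ hmain
  refine le_iInf₂ fun σ hσ => ?_
  exact iInf_le_of_le σ (iInf_le_of_le hσ.1 (iInf_le _ (adm_imp hσ)))

end Pool.Agent.Results.MP_69cc0b_an.ReflectionInequality
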